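import Pool.Agent.H694R4.Fin

/-!
# Centralizers in Cayley graphs
-/

set_option autoImplicit false

namespace Pool.Agent.H694R4

open SimpleGraph

/-- The Cayley graph of the group `Γ` with respect to `S`: the vertices are the elements of `Γ`,
and `x` is adjacent to `x s` and `x s⁻¹` for each `s ∈ S`, `s ≠ 1`. -/
def cay {Γ : Type*} [Group Γ] (S : Set Γ) : SimpleGraph Γ where
  Adj x y := x ≠ y ∧ (x⁻¹ * y ∈ S ∨ y⁻¹ * x ∈ S)
  symm := ⟨fun _ _ h => ⟨h.1.symm, h.2.symm⟩⟩
  loopless := ⟨fun _ h => h.1 rfl⟩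

theorem wk_prod {Γ : Type*} [Group Γ] (S : Set Γ) : ∀ l : List Γ,
    (∀ s ∈ l, s ∈ S ∨ s⁻¹ ∈ S) → ∀ x : Γ, ∃ n ≤ l.length, Wk (cay S) n x (x * l.prod) := by
  intro l
  induction l with
  | nil =>
    intro _ x
    exact ⟨0, le_rfl, by simp [Wk]⟩
  | cons s l ih =>
    intro hl x
    by_cases hs : s = 1
    · obtain ⟨n, hn, hw⟩ := ih (fun t ht => hl t (List.mem_cons_of_mem _ ht)) x
      refine ⟨n, by simp; omega, ?_⟩
      rwa [List.prod_cons, hs, one_mul]
    · obtain ⟨n, hn, hw⟩ := ih (fun t ht => hl t (List.mem_cons_of_mem _ ht)) (x * s)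
      refine ⟨n + 1, by simp; omega, x * s, ?_, ?_⟩
      · refine ⟨fun h => hs (by simpa using h.symm), ?_⟩
        rcases hl s List.mem_cons_self with h | h
        · left
          simpa using h
        · right
          simpa using h
      · rwa [List.prod_cons, ← mul_assoc]

/-- Few elements of the connection set commute with a short product. -/
theorem centralizer_le {Γ : Type*} [Group Γ] (S : Set Γ) (k : ℕ)
    (hfree : (cycleGraph (2 * k)).Free (cay S)) (l : List Γ) (hl : ∀ s ∈ l, s ∈ S ∨ s⁻¹ ∈ S)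
    (hlk : l.length < k) (hne : l.prod ≠ 1) :
    {s | s ∈ S ∧ Commute s l.prod}.encard ≤ ((2 * (k + 1) ^ 2 : ℕ) : ℕ∞) := by
  classical
  by_contra hcon
  rw [not_le] at hcon
  obtain ⟨T0, hT0, hT0c⟩ := Set.exists_subset_encard_eq (Order.add_one_le_of_lt hcon)
  have hT0f : T0.Finite := Set.finite_of_encard_eq_coe (k := 2 * (k + 1) ^ 2 + 1) (by
    rw [hT0c]
    push_cast
    rfl)
  have hT0n : hT0f.toFinset.card = 2 * (k + 1) ^ 2 + 1 := by
    have h1 := hT0f.encard_eq_coe_toFinset_card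
    rw [hT0c] at h1
    exact_mod_cast h1.symm
  set T := hT0f.toFinset.erase 1 with hT
  have hTc : 2 * (k + 1) ^ 2 ≤ T.card := by
    have := Finset.pred_card_le_card_erase (s := hT0f.toFinset) (a := 1)
    rw [hT]
    omega
  have hTs : ∀ s ∈ T, s ≠ 1 ∧ s ∈ S ∧ Commute s l.prod := by
    intro s hs
    rw [hT, Finset.mem_erase, Set.Finite.mem_toFinset] at hs
    exact ⟨hs.1, hT0 hs.2⟩
  set g := l.prod with hg
  obtain ⟨n0, hn0, hw0⟩ := wk_prod S l hl 1
  rw [one_mul, ← hg] at hw0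
  have hex : ∃ n, Wk (cay S) n 1 g := ⟨n0, hw0⟩
  obtain ⟨d, hd, hmin⟩ : ∃ d, Wk (cay S) d 1 g ∧ ∀ m < d, ¬ Wk (cay S) m 1 g :=
    ⟨Nat.find hex, Nat.find_spec hex, fun m hm => Nat.find_min hex hm⟩
  have hdn : d ≤ n0 := by
    by_contra h
    exact hmin n0 (by omega) hw0
  have hd1 : 1 ≤ d := by
    rcases Nat.eq_zero_or_pos d with h | h
    · subst h
      exact absurd (Eq.symm hd) hne
    · exact h
  obtain ⟨p, hp0, hpd, hp, hinj⟩ := hd.path_inj hmin
  apply hfree
  have hk : k = d + (k - d) := by omega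
  rw [hk]
  have haut : ∀ (h : Subgroup.centralizer {g}) (a c : Γ), (cay S).Adj a c →
      (cay S).Adj (h • a) (h • c) := by
    rintro h a c ⟨h1, h2⟩
    rw [Subgroup.smul_def, Subgroup.smul_def, smul_eq_mul, smul_eq_mul]
    refine ⟨fun h3 => h1 (mul_left_cancel h3), ?_⟩
    simpa [mul_assoc] using h2
  refine key (ι := Unit) (cay S) haut d (k - d) hd1 (by omega) (fun _ => p) (fun _ => hp)
    (fun _ => hinj) ?_ ?_ ()
  · rintro _ _ h h' hadj
    simp only [hp0, hpd] at hadj ⊢
    simp only [Subgroup.smul_def, smul_eq_mul, mul_one] at hadj ⊢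
    have h1 : (h : Γ) * g = g * h := (Subgroup.mem_centralizer_iff.mp h.2 g rfl).symm
    have h2 : (h' : Γ) * g = g * h' := (Subgroup.mem_centralizer_iff.mp h'.2 g rfl).symm
    rw [h1, h2]
    refine ⟨fun h3 => hadj.1 (mul_left_cancel h3), ?_⟩
    have h4 := hadj.2
    simpa [mul_assoc] using h4
  · rintro _ h' B hB
    have hcard : (d + 1) * B.card < T.card := by
      have h1 : (d + 1) * B.card ≤ (k + 1) * (2 * k) := by
        apply Nat.mul_le_mul
        · omega
        · omega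
      have h2 : (k + 1) * (2 * k) < 2 * (k + 1) ^ 2 := by nlinarith
      omega
    obtain ⟨s, hsT, hs⟩ : ∃ s ∈ T, ∀ m ≤ d, (h' : Γ) * s * p m ∉ B := by
      by_contra hcon2
      push Not at hcon2
      have hsub : T ⊆ (Finset.range (d + 1)).biUnion fun m =>
          B.image fun y => (h' : Γ)⁻¹ * (y * (p m)⁻¹) := by
        intro s hs
        obtain ⟨m, hm, hmB⟩ := hcon2 s hs
        rw [Finset.mem_biUnion]
        refine ⟨m, Finset.mem_range.mpr (by omega), ?_⟩
        rw [Finset.mem_image]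
        exact ⟨_, hmB, by group⟩
      have h1 := (Finset.card_le_card hsub).trans Finset.card_biUnion_le
      have h2 : ∑ m ∈ Finset.range (d + 1),
          (B.image fun y => (h' : Γ)⁻¹ * (y * (p m)⁻¹)).card ≤ (d + 1) * B.card := by
        refine (Finset.sum_le_sum fun m _ => Finset.card_image_le).trans ?_
        simp
      omega
    obtain ⟨hs1, hsS, hsg⟩ := hTs s hsT
    have hsH : s ∈ Subgroup.centralizer {g} := by
      rw [Subgroup.mem_centralizer_iff]
      intro y hy
      rw [Set.mem_singleton_iff] at hy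
      rw [hy]
      exact hsg.symm
    refine ⟨(), h' * ⟨s, hsH⟩, ?_, ?_⟩
    · simp only [hp0, Subgroup.smul_def, smul_eq_mul, mul_one, Subgroup.coe_mul]
      refine ⟨fun h => hs1 (by simpa using h.symm), Or.inl ?_⟩
      simpa using hsS
    · intro m hm
      simp only [Subgroup.smul_def, smul_eq_mul, Subgroup.coe_mul]
      exact hs m hm

end Pool.Agent.H694R4
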