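import Pool.Agent.H694R4.Grp

/-!
# Counting group elements
-/

set_option autoImplicit false

namespace Pool.Agent.H694R4

/-- `G` acts on the graph `X` by automorphisms, `b false` and `b true` are adjacent, the neighbours
of each of them are in the orbit of the other one, and both have at least `D` neighbours. -/
structure Sys {V : Type*} (X : SimpleGraph V) (G : Type*) [Group G] [MulAction G V]
    (b : Bool → V) (D : ℕ) : Prop where
  aut : ∀ (h : G) (a c : V), X.Adj a c → X.Adj (h • a) (h • c)
  adj : X.Adj (b false) (b true)
  nb : ∀ (i : Bool) (y : V), X.Adj (b i) y → ∃ h : G, h • b (!i) = y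
  deg : ∀ i : Bool, D ≤ (X.neighborSet (b i)).ncard

variable {V : Type*} {X : SimpleGraph V} {G : Type*} [Group G] [MulAction G V]
  {b : Bool → V} {D : ℕ}

theorem Sys.aut_iff (S : Sys X G b D) (h : G) (a c : V) :
    X.Adj (h • a) (h • c) ↔ X.Adj a c := by
  refine ⟨fun H => ?_, S.aut h a c⟩
  have := S.aut h⁻¹ _ _ H
  simpa using this

open Classical in
theorem Sys.cntA [Finite V] [Fintype G] (S : Sys X G b D) (i j : Bool) :
    D * (Finset.univ.filter fun h : G => h • b j = b j).card ≤
      (Finset.univ.filter fun h : G => X.Adj (b i) (h • b (!i))).card := by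
  have h1 : ∀ i : Bool, D * (Finset.univ.filter fun h : G => h • b (!i) = b (!i)).card ≤
      (Finset.univ.filter fun h : G => X.Adj (b i) (h • b (!i))).card := by
    intro i
    have hfin : (X.neighborSet (b i)).Finite := Set.toFinite _
    have hmaps : ∀ h ∈ (Finset.univ.filter fun h : G => X.Adj (b i) (h • b (!i))),
        h • b (!i) ∈ hfin.toFinset := by
      intro h hh
      rw [Set.Finite.mem_toFinset]
      exact (Finset.mem_filter.mp hh).2
    rw [Finset.card_eq_sum_card_fiberwise hmaps]
    have h2 : ∀ y ∈ hfin.toFinset,
        (Finset.univ.filter fun h : G => h • b (!i) = b (!i)).card ≤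
        ((Finset.univ.filter fun h : G => X.Adj (b i) (h • b (!i))).filter
          fun h => h • b (!i) = y).card := by
      intro y hy
      rw [Set.Finite.mem_toFinset] at hy
      obtain ⟨h0, hh0⟩ := S.nb i y hy
      refine Finset.card_le_card_of_injOn (fun t => h0 * t) ?_ ?_
      · intro t ht
        have ht' := (Finset.mem_filter.mp ht).2
        have h3 : (h0 * t) • b (!i) = y := by rw [mul_smul, ht', hh0]
        simp only [Finset.coe_filter, Finset.mem_filter, Finset.mem_univ, true_and,
          Set.mem_ofPred_eq]
        rw [h3]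
        exact ⟨hy, rfl⟩
      · intro t _ t' _ htt
        exact mul_left_cancel htt
    calc D * (Finset.univ.filter fun h : G => h • b (!i) = b (!i)).card
        ≤ hfin.toFinset.card * (Finset.univ.filter fun h : G => h • b (!i) = b (!i)).card := by
          apply Nat.mul_le_mul_right
          rw [← Set.ncard_eq_toFinset_card _ hfin]
          exact S.deg i
      _ = ∑ y ∈ hfin.toFinset, (Finset.univ.filter fun h : G => h • b (!i) = b (!i)).card := by
          rw [Finset.sum_const, smul_eq_mul]
      _ ≤ _ := Finset.sum_le_sum h2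
  have h2 : ∀ i : Bool, (Finset.univ.filter fun h : G => X.Adj (b (!i)) (h • b i)).card ≤
      (Finset.univ.filter fun h : G => X.Adj (b i) (h • b (!i))).card := by
    intro i
    refine Finset.card_le_card_of_injOn (fun t => t⁻¹) ?_ ?_
    · intro t ht
      have ht' := (Finset.mem_filter.mp ht).2
      simp only [Finset.coe_filter, Finset.mem_univ, true_and, Set.mem_ofPred_eq]
      rw [← S.aut_iff t]
      simpa using ht'.symm
    · intro t _ t' _ htt
      exact inv_injective htt
  by_cases hij : j = !i
  · subst hij
    exact h1 i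
  · have hji : j = i := by
      revert hij
      cases i <;> cases j <;> simp
    subst hji
    have h3 := h1 (!j)
    rw [Bool.not_not] at h3
    exact h3.trans (h2 j)

open Classical in
theorem Sys.cnt [Finite V] [Fintype G] (S : Sys X G b D) (i : Bool) (h' : G) (x y : V)
    (hx : ∃ (j : Bool) (h : G), x = h • b j) :
    D * (Finset.univ.filter fun h : G => h • x = y).card ≤
      (Finset.univ.filter fun h : G => X.Adj (h' • b i) (h • b (!i))).card := by
  obtain ⟨j, h0, rfl⟩ := hx
  have h1 : (Finset.univ.filter fun h : G => h • h0 • b j = y).card ≤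
      (Finset.univ.filter fun h : G => h • b j = b j).card := by
    rcases Finset.eq_empty_or_nonempty (Finset.univ.filter fun h : G => h • h0 • b j = y)
      with h | ⟨h1, hh1⟩
    · rw [h]
      simp
    · have hh1' := (Finset.mem_filter.mp hh1).2
      refine Finset.card_le_card_of_injOn (fun t => (h1 * h0)⁻¹ * (t * h0)) ?_ ?_
      · intro t ht
        have ht' := (Finset.mem_filter.mp ht).2
        simp only [Finset.coe_filter, Finset.mem_univ, true_and, Set.mem_ofPred_eq]
        rw [mul_smul, mul_smul, ht', inv_smul_eq_iff, mul_smul, hh1']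
      · intro t _ t' _ htt
        exact mul_right_cancel (mul_left_cancel htt)
  have h2 : (Finset.univ.filter fun h : G => X.Adj (b i) (h • b (!i))).card ≤
      (Finset.univ.filter fun h : G => X.Adj (h' • b i) (h • b (!i))).card := by
    refine Finset.card_le_card_of_injOn (fun t => h' * t) ?_ ?_
    · intro t ht
      have ht' := (Finset.mem_filter.mp ht).2
      simp only [Finset.coe_filter, Finset.mem_univ, true_and, Set.mem_ofPred_eq]
      rw [mul_smul]
      exact S.aut h' _ _ ht'
    · intro t _ t' _ htt
      exact mul_left_cancel htt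
  exact (Nat.mul_le_mul_left D h1).trans ((S.cntA i j).trans h2)

/-- selection of a neighbour -/
theorem Sys.sel [Finite V] [Finite G] (S : Sys X G b D) (d : ℕ) (p : ℕ → V)
    (hp : ∀ m ≤ d, ∃ (j : Bool) (h : G), p m = h • b j) (i : Bool) (h' : G) (B : Finset V)
    (hB : (d + 1) * B.card < D) :
    ∃ h : G, X.Adj (h' • b i) (h • b (!i)) ∧ ∀ m ≤ d, h • p m ∉ B := by
  classical
  have := Fintype.ofFinite G
  by_contra hcon
  push Not at hcon
  set A := Finset.univ.filter fun h : G => X.Adj (h' • b i) (h • b (!i)) with hA
  have hsub : A ⊆ (Finset.range (d + 1)).biUnion fun m => B.biUnion fun y =>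
      Finset.univ.filter fun h : G => h • p m = y := by
    intro h hh
    obtain ⟨m, hm, hmB⟩ := hcon h (Finset.mem_filter.mp hh).2
    rw [Finset.mem_biUnion]
    refine ⟨m, Finset.mem_range.mpr (by omega), ?_⟩
    rw [Finset.mem_biUnion]
    exact ⟨_, hmB, Finset.mem_filter.mpr ⟨Finset.mem_univ _, rfl⟩⟩
  have hle : D * A.card ≤ (d + 1) * B.card * A.card := by
    calc D * A.card ≤ D * ∑ m ∈ Finset.range (d + 1), ∑ y ∈ B,
          (Finset.univ.filter fun h : G => h • p m = y).card := by
          apply Nat.mul_le_mul_left
          refine (Finset.card_le_card hsub).trans (Finset.card_biUnion_le.trans ?_)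
          exact Finset.sum_le_sum fun m _ => Finset.card_biUnion_le
      _ = ∑ m ∈ Finset.range (d + 1), ∑ y ∈ B,
          D * (Finset.univ.filter fun h : G => h • p m = y).card := by
          rw [Finset.mul_sum]
          exact Finset.sum_congr rfl fun m _ => Finset.mul_sum _ _ _
      _ ≤ ∑ m ∈ Finset.range (d + 1), ∑ y ∈ B, A.card := by
          refine Finset.sum_le_sum fun m hm => Finset.sum_le_sum fun y _ => ?_
          exact S.cnt i h' (p m) y (hp m (by have := Finset.mem_range.mp hm; omega))
      _ = (d + 1) * B.card * A.card := by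
          simp [Finset.sum_const, mul_assoc]
  have hpos : 0 < A.card := by
    have h1 := S.cnt i h' (b i) (b i) ⟨i, 1, by simp⟩
    have h2 : 0 < (Finset.univ.filter fun h : G => h • b i = b i).card :=
      Finset.card_pos.mpr ⟨1, by simp⟩
    have h3 : 0 < D := by omega
    exact lt_of_lt_of_le (Nat.mul_pos h3 h2) h1
  have := Nat.le_of_mul_le_mul_right hle hpos
  omega

end Pool.Agent.H694R4
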