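import Pool.Agent.H694R4.Main

/-!
# The number of edges
-/

set_option autoImplicit false

namespace Pool.Agent.H694R4

open SimpleGraph

variable {V : Type*} {G : Type*} [Group G] [MulAction G V]

/-- the edges between the orbits of `u` and `v` -/
def between (X : SimpleGraph V) (G : Type*) [Group G] [MulAction G V] (u v : V) :
    SimpleGraph V where
  Adj x y := X.Adj x y ∧ ((x ∈ MulAction.orbit G u ∧ y ∈ MulAction.orbit G v) ∨
    (x ∈ MulAction.orbit G v ∧ y ∈ MulAction.orbit G u))
  symm := ⟨fun _ _ h => ⟨h.1.symm, h.2.symm.imp And.symm And.symm⟩⟩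
  loopless := ⟨fun _ h => h.1.ne rfl⟩

/-- two orbits with many edges in between -/
theorem two_orbits [Finite V] [Finite G] [Group.IsNilpotent G] (X : SimpleGraph V)
    (haut : ∀ (h : G) (a c : V), X.Adj a c → X.Adj (h • a) (h • c)) (c k : ℕ)
    (hc : Group.nilpotencyClass G ≤ c) (hc1 : 1 ≤ c) (hk : 3 * 2 ^ c ≤ k + 3) (u v : V)
    (huv : X.Adj u v)
    (hu : 2 * (k + 1) ^ 2 ≤ (X.neighborSet u ∩ MulAction.orbit G v).ncard)
    (hv : 2 * (k + 1) ^ 2 ≤ (X.neighborSet v ∩ MulAction.orbit G u).ncard) :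
    cycleGraph (2 * k) ⊑ X := by
  have S : Sys (between X G u v) G (fun i => bif i then v else u) (2 * (k + 1) ^ 2) := by
    refine ⟨?_, ?_, ?_, ?_⟩
    · rintro h a d ⟨h1, h2⟩
      refine ⟨haut h _ _ h1, ?_⟩
      rcases h2 with ⟨h2, h3⟩ | ⟨h2, h3⟩
      · exact Or.inl ⟨MulAction.mem_orbit_of_mem_orbit h h2, MulAction.mem_orbit_of_mem_orbit h h3⟩
      · exact Or.inr ⟨MulAction.mem_orbit_of_mem_orbit h h2, MulAction.mem_orbit_of_mem_orbit h h3⟩
    · exact ⟨huv, Or.inl ⟨MulAction.mem_orbit_self _, MulAction.mem_orbit_self _⟩⟩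
    · intro i y hy
      cases i
      · obtain ⟨_, h2⟩ := hy
        simp only [cond_false] at h2
        simp only [Bool.not_false, cond_true]
        rcases h2 with ⟨_, h3⟩ | ⟨h2, h3⟩
        · exact h3
        · rw [MulAction.orbit_eq_iff.mpr h2] at h3
          exact h3
      · obtain ⟨_, h2⟩ := hy
        simp only [cond_true] at h2
        simp only [Bool.not_true, cond_false]
        rcases h2 with ⟨h2, h3⟩ | ⟨_, h3⟩
        · rw [MulAction.orbit_eq_iff.mpr h2] at h3
          exact h3
        · exact h3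
    · intro i
      cases i
      · refine hu.trans (Set.ncard_le_ncard ?_ (Set.toFinite _))
        rintro y ⟨h1, h2⟩
        exact ⟨h1, Or.inl ⟨MulAction.mem_orbit_self _, h2⟩⟩
      · refine hv.trans (Set.ncard_le_ncard ?_ (Set.toFinite _))
        rintro y ⟨h1, h2⟩
        exact ⟨h1, Or.inr ⟨MulAction.mem_orbit_self _, h2⟩⟩
  have h1 := S.main c k hc hc1 hk le_rfl
  exact h1.trans_le (fun a d h => h.1)

open Classical in
/-- few edges if there are few orbits -/
theorem edges_le [Finite V] [Finite G] [Group.IsNilpotent G] (X : SimpleGraph V)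
    (haut : ∀ (h : G) (a c : V), X.Adj a c → X.Adj (h • a) (h • c)) (c k : ℕ)
    (hc : Group.nilpotencyClass G ≤ c) (hc1 : 1 ≤ c) (hk : 3 * 2 ^ c ≤ k + 3)
    (hfree : (cycleGraph (2 * k)).Free X) :
    X.edgeSet.ncard ≤
      2 * (k + 1) ^ 2 * Nat.card (MulAction.orbitRel.Quotient G V) * Nat.card V := by
  have := Fintype.ofFinite V
  have := Fintype.ofFinite (MulAction.orbitRel.Quotient G V)
  set D := 2 * (k + 1) ^ 2 with hD
  set L : Finset (V × V) := Finset.univ.filter fun q => X.Adj q.1 q.2 ∧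
    (X.neighborSet q.1 ∩ MulAction.orbit G q.2).ncard < D with hL
  have h1 : X.edgeSet ⊆ ((L.image fun q => s(q.1, q.2) : Finset (Sym2 V)) : Set (Sym2 V)) := by
    intro e he
    induction e with
    | _ u v =>
      rw [SimpleGraph.mem_edgeSet] at he
      rw [Finset.coe_image]
      by_cases hu : (X.neighborSet u ∩ MulAction.orbit G v).ncard < D
      · exact ⟨(u, v), by simpa [hL] using ⟨he, hu⟩, rfl⟩
      · by_cases hv : (X.neighborSet v ∩ MulAction.orbit G u).ncard < D
        · exact ⟨(v, u), by simpa [hL] using ⟨he.symm, hv⟩, Sym2.eq_swap⟩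
        · exact absurd (two_orbits X haut c k hc hc1 hk u v he (not_lt.mp hu) (not_lt.mp hv))
            hfree
  have h2 : X.edgeSet.ncard ≤ L.card := by
    refine (Set.ncard_le_ncard h1 (Finset.finite_toSet _)).trans ?_
    rw [Set.ncard_coe_finset]
    exact Finset.card_image_le
  refine h2.trans ?_
  have h3 : ∀ q ∈ L, ((q.1, (Quotient.mk'' q.2 : MulAction.orbitRel.Quotient G V)) :
      V × MulAction.orbitRel.Quotient G V) ∈
      (Finset.univ : Finset (V × MulAction.orbitRel.Quotient G V)) := fun q _ =>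
    Finset.mem_univ _
  rw [Finset.card_eq_sum_card_fiberwise h3]
  have h4 : ∀ y ∈ (Finset.univ : Finset (V × MulAction.orbitRel.Quotient G V)),
      (L.filter fun q => ((q.1, (Quotient.mk'' q.2 : MulAction.orbitRel.Quotient G V)) :
        V × MulAction.orbitRel.Quotient G V) = y).card ≤ D := by
    rintro ⟨x, w⟩ _
    rcases Finset.eq_empty_or_nonempty (L.filter fun q =>
      ((q.1, (Quotient.mk'' q.2 : MulAction.orbitRel.Quotient G V)) :
        V × MulAction.orbitRel.Quotient G V) = (x, w)) with h | ⟨⟨u, v⟩, h⟩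
    · rw [h]
      simp
    · rw [Finset.mem_filter] at h
      obtain ⟨h5, h6⟩ := h
      rw [Prod.mk.injEq] at h6
      obtain ⟨rfl, rfl⟩ := h6
      have h7 := (Finset.mem_filter.mp h5).2.2
      refine le_trans ?_ h7.le
      rw [Set.ncard_eq_toFinset_card _ (Set.toFinite _)]
      refine Finset.card_le_card_of_injOn (fun q => q.2) ?_ ?_
      · rintro ⟨a, e⟩ hq
        rw [Finset.mem_coe, Finset.mem_filter] at hq
        obtain ⟨h8, h9⟩ := hq
        rw [Prod.mk.injEq] at h9
        obtain ⟨h9, h10⟩ := h9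
        simp only at h9
        subst h9
        have h11 := (Finset.mem_filter.mp h8).2.1
        simp only [Set.Finite.coe_toFinset]
        refine ⟨h11, ?_⟩
        exact (MulAction.orbitRel_apply).mp (Quotient.exact h10)
      · rintro ⟨a, e⟩ hq ⟨a', e'⟩ hq' hee
        rw [Finset.mem_coe, Finset.mem_filter] at hq hq'
        have h9 := hq.2
        have h9' := hq'.2
        rw [Prod.mk.injEq] at h9 h9'
        simp only at h9 h9' hee
        rw [h9.1, h9'.1, hee]
  refine (Finset.sum_le_sum h4).trans ?_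
  rw [Finset.sum_const, smul_eq_mul, Finset.card_univ, Fintype.card_prod, Nat.card_eq_fintype_card,
    Nat.card_eq_fintype_card]
  apply le_of_eq
  ring

end Pool.Agent.H694R4
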