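import Pool.Agent.H694R4.Key

/-!
# Elements of a nilpotent group that are central modulo `N`, with few generators
-/

set_option autoImplicit false

namespace Pool.Agent.H694R4

open scoped commutatorElement

theorem grp {G : Type*} [Group G] (N : Subgroup G) [N.Normal] (M : Set G)
    (hM : Subgroup.closure M = ⊤) (R : ℕ → G → Prop) (hR1 : ∀ z ∈ M, R 2 z)
    (hRc : ∀ m u z, R m u → z ∈ M → R (2 * m + 4) ⁅u, z⁆)
    (hmono : ∀ m m' u, m ≤ m' → R m u → R m' u) (c : ℕ)
    (hc : (⊤ : Subgroup G).lowerCentralSeries c = ⊥) (hN : N ≠ ⊤) :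
    ∃ g, g ∉ N ∧ R (3 * 2 ^ c - 4) g ∧
      ∀ h, Commute (QuotientGroup.mk' N g) (QuotientGroup.mk' N h) := by
  have claim : ∀ m n, m + n = c → ∀ u ∈ (⊤ : Subgroup G).lowerCentralSeries n, u ∉ N →
      R (3 * 2 ^ (n + 1) - 4) u → ∃ g, g ∉ N ∧ R (3 * 2 ^ c - 4) g ∧
      ∀ h, Commute (QuotientGroup.mk' N g) (QuotientGroup.mk' N h) := by
    intro m
    induction m with
    | zero =>
      intro n hn u hu huN
      rw [show n = c by omega, hc, Subgroup.mem_bot] at hu
      exact absurd (hu ▸ N.one_mem) huN
    | succ m ih =>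
      intro n hn u hu huN hR
      by_cases hcen : ∀ z ∈ M, ⁅u, z⁆ ∈ N
      · refine ⟨u, huN, hmono _ _ _ ?_ hR, ?_⟩
        · have h1 : 2 ^ (n + 1) ≤ 2 ^ c := Nat.pow_le_pow_right (by norm_num) (by omega)
          omega
        · have h2 : Subgroup.closure M ≤
              (Subgroup.centralizer {QuotientGroup.mk' N u}).comap (QuotientGroup.mk' N) := by
            rw [Subgroup.closure_le]
            intro z hz
            have h3 := hcen z hz
            rw [SetLike.mem_coe, Subgroup.mem_comap, Subgroup.mem_centralizer_iff]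
            intro y hy
            rw [Set.mem_singleton_iff] at hy
            subst hy
            rw [← map_mul, ← map_mul]
            have h4 : (QuotientGroup.mk' N) ⁅u, z⁆ = 1 := by
              rw [QuotientGroup.mk'_apply, QuotientGroup.eq_one_iff]
              exact h3
            rw [map_commutatorElement, commutatorElement_eq_one_iff_mul_comm] at h4
            rw [map_mul, map_mul]
            exact h4
          intro h
          have h5 : h ∈ (Subgroup.centralizer {QuotientGroup.mk' N u}).comap
              (QuotientGroup.mk' N) := h2 (hM ▸ Subgroup.mem_top h)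
          rw [Subgroup.mem_comap, Subgroup.mem_centralizer_iff] at h5
          exact h5 _ rfl
      · push Not at hcen
        obtain ⟨z, hz, hzN⟩ := hcen
        refine ih (n + 1) (by omega) ⁅u, z⁆ ?_ hzN ?_
        · exact Subgroup.commutator_mem_commutator hu (Subgroup.mem_top z)
        · have h6 := hRc _ _ _ hR hz
          have h7 : 2 * (3 * 2 ^ (n + 1) - 4) + 4 = 3 * 2 ^ (n + 1 + 1) - 4 := by
            have h8 : 1 ≤ 2 ^ n := Nat.one_le_two_pow
            rw [pow_succ, pow_succ, pow_succ]
            omega
          rwa [h7] at h6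
  obtain ⟨z, hz, hzN⟩ : ∃ z ∈ M, z ∉ N := by
    by_contra hcon
    push Not at hcon
    apply hN
    rw [eq_top_iff, ← hM, Subgroup.closure_le]
    exact hcon
  exact claim c 0 (by omega) z (by simp) hzN (hR1 z hz)

end Pool.Agent.H694R4
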