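import Mathlib

/-!
# Even cycles from commuting translations: the key lemma
-/

set_option autoImplicit false

namespace Pool.Agent.H694R4

open SimpleGraph

/-- A closed sequence of distinct, consecutively adjacent vertices is a copy of the cycle. -/
theorem cycle_of_fun {V : Type*} (X : SimpleGraph V) (n : ℕ) (hn : 3 ≤ n) (f : ℕ → V)
    (hadj : ∀ i, i + 1 < n → X.Adj (f i) (f (i + 1))) (hlast : X.Adj (f (n - 1)) (f 0))
    (hinj : ∀ i j, i < j → j < n → f i ≠ f j) : cycleGraph n ⊑ X := by
  have hone : ∀ u v : Fin n, (v : ℕ) = (u : ℕ) + 1 ∨ ((u : ℕ) = n - 1 ∧ (v : ℕ) = 0) →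
      X.Adj (f u) (f v) := by
    rintro u v (h | ⟨h1, h2⟩)
    · rw [h]
      apply hadj
      have := v.isLt
      omega
    · rw [h1, h2]
      exact hlast
  refine ⟨⟨⟨fun i => f i, ?_⟩, ?_⟩⟩
  · intro u v h
    rw [cycleGraph_adj'] at h
    have hu := u.isLt
    have hv := v.isLt
    rcases h with h | h
    · -- u - v = 1
      refine (hone v u ?_).symm
      rw [Fin.sub_def] at h
      simp only at h
      rcases Nat.lt_or_ge (u : ℕ) (v : ℕ) with h1 | h1
      · rw [Nat.mod_eq_of_lt (by omega)] at h
        right
        omega
      · rw [show n - (v : ℕ) + (u : ℕ) = ((u : ℕ) - (v : ℕ)) + n by omega, Nat.add_mod_right,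
          Nat.mod_eq_of_lt (by omega)] at h
        left
        omega
    · apply hone
      rw [Fin.sub_def] at h
      simp only at h
      rcases Nat.lt_or_ge (v : ℕ) (u : ℕ) with h1 | h1
      · rw [Nat.mod_eq_of_lt (by omega)] at h
        right
        omega
      · rw [show n - (u : ℕ) + (v : ℕ) = ((v : ℕ) - (u : ℕ)) + n by omega, Nat.add_mod_right,
          Nat.mod_eq_of_lt (by omega)] at h
        left
        omega
  · intro a b hab
    by_contra hne
    rcases Nat.lt_or_gt_of_ne (fun h => hne (Fin.ext h)) with h | h
    · exact hinj a b h b.isLt hab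
    · exact hinj b a h a.isLt hab.symm

/-- Key lemma. `G` acts on the graph `X`; `p i` is a path of length `d` from `p i 0` to `p i d`.
If translates of the starting points are adjacent then so are the same translates of the end
points, and each translate of a starting point has a neighbour among the translates of the
starting points for which the whole translated path avoids a given small set. Then `X` contains
the cycle of length `2 (d + r)`. -/
theorem key {V ι G : Type*} [Group G] [MulAction G V] (X : SimpleGraph V)
    (haut : ∀ (h : G) (a b : V), X.Adj a b → X.Adj (h • a) (h • b))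
    (d r : ℕ) (hd : 1 ≤ d) (hr : 1 ≤ r) (p : ι → ℕ → V)
    (hp : ∀ i j, j < d → X.Adj (p i j) (p i (j + 1)))
    (hinj : ∀ i j j', j ≤ d → j' ≤ d → p i j = p i j' → j = j')
    (hC : ∀ (i i' : ι) (h h' : G), X.Adj (h • p i 0) (h' • p i' 0) →
      X.Adj (h • p i d) (h' • p i' d))
    (hA : ∀ (j : ι) (h' : G) (B : Finset V), B.card ≤ d + 1 + 2 * r → ∃ (i : ι) (h : G),
      X.Adj (h' • p j 0) (h • p i 0) ∧ ∀ m ≤ d, h • p i m ∉ B) (i0 : ι) :
    cycleGraph (2 * (d + r)) ⊑ X := by
  classical
  -- the walk of starting points
  have hseq : ∀ m ≤ r, ∃ s : ℕ → ι × G, s 0 = (i0, 1) ∧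
      (∀ l < m, X.Adj ((s l).2 • p (s l).1 0) ((s (l + 1)).2 • p (s (l + 1)).1 0)) ∧
      (∀ l, 1 ≤ l → l ≤ m → ∀ j ≤ d, (∀ j' ≤ d, (s l).2 • p (s l).1 j ≠ p i0 j') ∧
        ∀ t < l, (s l).2 • p (s l).1 j ≠ (s t).2 • p (s t).1 0 ∧
          (s l).2 • p (s l).1 j ≠ (s t).2 • p (s t).1 d) := by
    intro m
    induction m with
    | zero =>
      intro _
      refine ⟨fun _ => (i0, 1), rfl, fun l hl => absurd hl (by omega), ?_⟩
      intro l h1 h2
      omega
    | succ m ih =>
      intro hm
      obtain ⟨s, hs0, hs1, hs2⟩ := ih (by omega)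
      obtain ⟨i, h, hih, hav⟩ := hA (s m).1 (s m).2
        ((Finset.range (d + 1)).image (fun j => p i0 j) ∪
          ((Finset.range (m + 1)).image (fun t => (s t).2 • p (s t).1 0) ∪
            (Finset.range (m + 1)).image (fun t => (s t).2 • p (s t).1 d))) (by
          refine (Finset.card_union_le _ _).trans ?_
          have h1 := Finset.card_image_le (s := Finset.range (d + 1)) (f := fun j => p i0 j)
          have h2 := Finset.card_image_le (s := Finset.range (m + 1))
            (f := fun t => (s t).2 • p (s t).1 0)
          have h3 := Finset.card_image_le (s := Finset.range (m + 1))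
            (f := fun t => (s t).2 • p (s t).1 d)
          have h4 := Finset.card_union_le ((Finset.range (m + 1)).image
            (fun t => (s t).2 • p (s t).1 0)) ((Finset.range (m + 1)).image
            (fun t => (s t).2 • p (s t).1 d))
          rw [Finset.card_range] at h1 h2 h3
          omega)
      refine ⟨Function.update s (m + 1) (i, h), ?_, ?_, ?_⟩
      · rw [Function.update_of_ne (by omega)]
        exact hs0
      · intro l hl
        rcases Nat.lt_or_ge l m with h1 | h1
        · rw [Function.update_of_ne (by omega), Function.update_of_ne (by omega)]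
          exact hs1 l h1
        · have h2 : l = m := by omega
          subst h2
          rw [Function.update_of_ne (by omega), Function.update_self]
          exact hih
      · intro l h1 h2 j hj
        rcases Nat.lt_or_ge l (m + 1) with h3 | h3
        · rw [Function.update_of_ne (by omega)]
          refine ⟨(hs2 l h1 (by omega) j hj).1, ?_⟩
          intro t ht
          rw [Function.update_of_ne (by omega)]
          exact (hs2 l h1 (by omega) j hj).2 t ht
        · have h4 : l = m + 1 := by omega
          subst h4
          rw [Function.update_self]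
          have h5 := hav j hj
          simp only [Finset.mem_union, Finset.mem_image, Finset.mem_range, not_or, not_exists,
            not_and] at h5
          refine ⟨fun j' hj' he => h5.1 j' (by omega) he.symm, ?_⟩
          intro t ht
          rw [Function.update_of_ne (by omega)]
          exact ⟨fun he => h5.2.1 t (by omega) he.symm, fun he => h5.2.2 t (by omega) he.symm⟩
  obtain ⟨s, hs0, hs1, hs2⟩ := hseq r le_rfl
  -- abbreviations
  set w : ℕ → V := fun t => (s t).2 • p (s t).1 0 with hw
  set w' : ℕ → V := fun t => (s t).2 • p (s t).1 d with hw'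
  set q : ℕ → V := fun j => (s r).2 • p (s r).1 j with hq
  have w0 : w 0 = p i0 0 := by simp [hw, hs0]
  have w'0 : w' 0 = p i0 d := by simp [hw', hs0]
  have q0 : q 0 = w r := rfl
  have qd : q d = w' r := rfl
  have F1 : ∀ a b, a < b → b ≤ r → w a ≠ w b := fun a b h1 h2 he =>
    ((hs2 b (by omega) h2 0 (by omega)).2 a h1).1 he.symm
  have F2 : ∀ a b, a < b → b ≤ r → w' a ≠ w' b := fun a b h1 h2 he =>
    ((hs2 b (by omega) h2 d le_rfl).2 a h1).2 he.symm
  have F3 : ∀ a b, a ≤ r → b ≤ r → w a ≠ w' b := by
    intro a b h1 h2 he
    rcases Nat.lt_trichotomy a b with h | h | h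
    · exact ((hs2 b (by omega) h2 d le_rfl).2 a h).1 he.symm
    · subst h
      have h3 : p (s a).1 0 = p (s a).1 d := MulAction.injective (s a).2 he
      have := hinj _ _ _ (by omega) le_rfl h3
      omega
    · exact ((hs2 a (by omega) h1 0 (by omega)).2 b h).2 he
  have F4 : ∀ a, 1 ≤ a → a ≤ r → ∀ j ≤ d, w a ≠ p i0 j ∧ w' a ≠ p i0 j := fun a h1 h2 j hj =>
    ⟨(hs2 a h1 h2 0 (by omega)).1 j hj, (hs2 a h1 h2 d le_rfl).1 j hj⟩
  have F5 : ∀ j ≤ d, (∀ j' ≤ d, q j ≠ p i0 j') ∧ ∀ t < r, q j ≠ w t ∧ q j ≠ w' t := fun j hj =>
    hs2 r hr le_rfl j hj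
  have F6 : ∀ j j', j ≤ d → j' ≤ d → q j = q j' → j = j' := fun j j' h1 h2 he =>
    hinj _ _ _ h1 h2 (MulAction.injective (s r).2 he)
  have Aw : ∀ t < r, X.Adj (w t) (w (t + 1)) := hs1
  have Aw' : ∀ t < r, X.Adj (w' t) (w' (t + 1)) := fun t ht => hC _ _ _ _ (hs1 t ht)
  have Aq : ∀ j < d, X.Adj (q j) (q (j + 1)) := fun j hj => haut _ _ _ (hp _ j hj)
  obtain ⟨f, hf⟩ : ∃ f : ℕ → V, f = fun i => if i ≤ r then w i else if i < r + d then q (i - r)
      else if i ≤ 2 * r + d then w' (2 * r + d - i) else p i0 (2 * r + 2 * d - i) := ⟨_, rfl⟩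
  have fA : ∀ i, i ≤ r → f i = w i := by
    intro i hi
    rw [hf]
    simp only [if_pos hi]
  have fB : ∀ i, r ≤ i → i ≤ r + d → f i = q (i - r) := by
    intro i h1 h2
    rcases Nat.eq_or_lt_of_le h1 with h | h
    · subst h
      rw [fA _ le_rfl, Nat.sub_self]
    · rcases Nat.eq_or_lt_of_le h2 with h' | h'
      · subst h'
        rw [hf]
        simp only
        rw [if_neg (by omega), if_neg (by omega), if_pos (by omega),
          show 2 * r + d - (r + d) = r by omega, show r + d - r = d by omega]
      · rw [hf]
        simp only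
        rw [if_neg (by omega), if_pos h']
  have fC : ∀ i, r + d ≤ i → i ≤ 2 * r + d → f i = w' (2 * r + d - i) := by
    intro i h1 h2
    rw [hf]
    simp only
    rw [if_neg (by omega), if_neg (by omega), if_pos h2]
  have fD : ∀ i, 2 * r + d ≤ i → i < 2 * r + 2 * d → f i = p i0 (2 * r + 2 * d - i) := by
    intro i h1 h2
    rcases Nat.eq_or_lt_of_le h1 with h | h
    · subst h
      rw [fC _ (by omega) le_rfl, Nat.sub_self, w'0]
      congr 1
      omega
    · rw [hf]
      simp only
      rw [if_neg (by omega), if_neg (by omega), if_neg (by omega)]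
  refine cycle_of_fun X (2 * (d + r)) (by omega) f ?_ ?_ ?_
  · intro i hi
    rcases Nat.lt_or_ge i r with h1 | h1
    · rw [fA i (by omega), fA (i + 1) (by omega)]
      exact Aw i h1
    rcases Nat.lt_or_ge i (r + d) with h2 | h2
    · rw [fB i h1 (by omega), fB (i + 1) (by omega) (by omega),
        show i + 1 - r = (i - r) + 1 by omega]
      exact Aq (i - r) (by omega)
    rcases Nat.lt_or_ge i (2 * r + d) with h3 | h3
    · rw [fC i h2 (by omega), fC (i + 1) (by omega) (by omega),
        show 2 * r + d - i = (2 * r + d - (i + 1)) + 1 by omega]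
      exact (Aw' (2 * r + d - (i + 1)) (by omega)).symm
    · rw [fD i h3 (by omega), fD (i + 1) (by omega) (by omega),
        show 2 * r + 2 * d - i = (2 * r + 2 * d - (i + 1)) + 1 by omega]
      exact (hp i0 _ (by omega)).symm
  · rw [fD (2 * (d + r) - 1) (by omega) (by omega), fA 0 (by omega), w0,
      show 2 * r + 2 * d - (2 * (d + r) - 1) = 0 + 1 by omega]
    exact (hp i0 0 (by omega)).symm
  · intro i j hij hj
    rcases Nat.lt_or_ge r i with hA1 | hA1
    · rcases Nat.lt_or_ge i (r + d) with hB1 | hB1
      · -- i in B
        rw [fB i (by omega) (by omega)]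
        rcases Nat.lt_or_ge j (r + d) with hB2 | hB2
        · rw [fB j (by omega) (by omega)]
          intro he
          have := F6 _ _ (by omega) (by omega) he
          omega
        rcases Nat.lt_or_ge (2 * r + d) j with hC2 | hC2
        · rw [fD j (by omega) (by omega)]
          exact (F5 (i - r) (by omega)).1 _ (by omega)
        · rw [fC j hB2 hC2]
          rcases Nat.lt_or_ge (2 * r + d - j) r with h | h
          · exact ((F5 (i - r) (by omega)).2 _ h).2
          · rw [show 2 * r + d - j = r by omega, ← qd]
            intro he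
            have := F6 _ _ (by omega) (by omega) he
            omega
      · rcases Nat.lt_or_ge (2 * r + d) i with hC1 | hC1
        · rw [fD i (by omega) (by omega), fD j (by omega) (by omega)]
          intro he
          have := hinj _ _ _ (by omega) (by omega) he
          omega
        · rw [fC i hB1 hC1]
          rcases Nat.lt_or_ge (2 * r + d) j with hC2 | hC2
          · rw [fD j (by omega) (by omega)]
            rcases Nat.eq_zero_or_pos (2 * r + d - i) with h | h
            · rw [h, w'0]
              intro he
              have := hinj _ _ _ (by omega) (by omega) he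
              omega
            · exact (F4 _ h (by omega) _ (by omega)).2
          · rw [fC j (by omega) hC2]
            exact (F2 _ _ (by omega) (by omega)).symm
    · rw [fA i hA1]
      rcases Nat.lt_or_ge r j with hA2 | hA2
      · rcases Nat.lt_or_ge j (r + d) with hB2 | hB2
        · rw [fB j (by omega) (by omega)]
          rcases Nat.lt_or_ge i r with h | h
          · exact ((F5 (j - r) (by omega)).2 i h).1.symm
          · rw [show i = r by omega, ← q0]
            intro he
            have := F6 _ _ (by omega) (by omega) he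
            omega
        rcases Nat.lt_or_ge (2 * r + d) j with hC2 | hC2
        · rw [fD j (by omega) (by omega)]
          rcases Nat.eq_zero_or_pos i with h | h
          · rw [h, w0]
            intro he
            have := hinj _ _ _ (by omega) (by omega) he
            omega
          · exact (F4 _ h hA1 _ (by omega)).1
        · rw [fC j hB2 hC2]
          exact F3 _ _ hA1 (by omega)
      · rw [fA j hA2]
        exact F1 _ _ hij hA2

end Pool.Agent.H694R4
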