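import Pool.Agent.H694R4.Orb

/-!
# Even cycles and orbits of nilpotent groups
-/

set_option autoImplicit false

namespace Pool.Agent.H694R4

open SimpleGraph
open scoped commutatorElement

variable {V : Type*} {X : SimpleGraph V} {G : Type*} [Group G] [MulAction G V]
  {b : Bool → V} {D : ℕ}

/-- `k` different elements of a large set -/
theorem exists_inj {α : Type*} (s : Set α) (hs : s.Finite) (k : ℕ) (h0 : 1 ≤ k)
    (hk : k ≤ s.ncard) :
    ∃ a : ℕ → α, (∀ i < k, a i ∈ s) ∧ ∀ i j, i < k → j < k → a i = a j → i = j := by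
  classical
  have hlen : k ≤ hs.toFinset.toList.length := by
    rw [Finset.length_toList, ← Set.ncard_eq_toFinset_card s hs]
    exact hk
  have hx : 0 < hs.toFinset.toList.length := by omega
  refine ⟨fun i => hs.toFinset.toList.getD i (hs.toFinset.toList[0]), ?_, ?_⟩
  · intro i hi
    have h1 : hs.toFinset.toList.getD i (hs.toFinset.toList[0]) =
        hs.toFinset.toList[i]'(by omega) := by
      rw [List.getD_eq_getElem]
    simp only [h1]
    have h2 := List.getElem_mem (l := hs.toFinset.toList) (n := i) (by omega)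
    rw [Finset.mem_toList, Set.Finite.mem_toFinset] at h2
    exact h2
  · intro i j hi hj h
    simp only at h
    rw [List.getD_eq_getElem _ _ (by omega), List.getD_eq_getElem _ _ (by omega)] at h
    exact (List.Nodup.getElem_inj_iff (Finset.nodup_toList _)).mp h

/-- the case that all the vertices of an orbit are twins -/
theorem Sys.twins [Finite V] (S : Sys X G b D) (htop : NO S = ⊤) (k : ℕ) (hk : 2 ≤ k)
    (hD : k ≤ D) : cycleGraph (2 * k) ⊑ X := by
  have htw : ∀ (h : G) (i : Bool), Tw X (h • b i) (b i) := by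
    intro h i
    have h1 : h ∈ NO S := htop ▸ Subgroup.mem_top h
    exact h1 _ (InO.base i)
  obtain ⟨a, ha, hai⟩ := exists_inj (X.neighborSet (b true)) (Set.toFinite _) k (by omega)
    (hD.trans (S.deg true))
  obtain ⟨e, he, hei⟩ := exists_inj (X.neighborSet (b false)) (Set.toFinite _) k (by omega)
    (hD.trans (S.deg false))
  have hTa : ∀ i < k, Tw X (a i) (b false) := by
    intro i hi
    obtain ⟨h, hh⟩ := S.nb true _ (ha i hi)
    rw [← hh]
    exact htw h false
  have hae : ∀ i j, i < k → j < k → X.Adj (a i) (e j) := fun i j hi hj =>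
    (hTa i hi _).mpr (he j hj)
  have hne : ∀ i j, i < k → j < k → a i ≠ e j := fun i j hi hj => (hae i j hi hj).ne
  refine cycle_of_fun X (2 * k) (by omega) (fun i => if i % 2 = 0 then a (i / 2) else e (i / 2))
    ?_ ?_ ?_
  · intro i hi
    rcases Nat.mod_two_eq_zero_or_one i with h | h
    · rw [if_pos h, if_neg (by omega)]
      exact hae _ _ (by omega) (by omega)
    · rw [if_neg (by omega), if_pos (by omega)]
      exact (hae _ _ (by omega) (by omega)).symm
  · rw [if_neg (by omega), if_pos (by omega)]
    exact (hae (0 / 2) ((2 * k - 1) / 2) (by omega) (by omega)).symm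
  · intro i j hij hj
    rcases Nat.mod_two_eq_zero_or_one i with h | h <;>
      rcases Nat.mod_two_eq_zero_or_one j with h' | h'
    · rw [if_pos h, if_pos h']
      intro hc
      have := hai _ _ (by omega) (by omega) hc
      omega
    · rw [if_pos h, if_neg (by omega)]
      exact hne _ _ (by omega) (by omega)
    · rw [if_neg (by omega), if_pos h']
      exact (hne _ _ (by omega) (by omega)).symm
    · rw [if_neg (by omega), if_neg (by omega)]
      intro hc
      have := hei _ _ (by omega) (by omega) hc
      omega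

/-- Even cycles between two orbits of a nilpotent group. -/
theorem Sys.main [Finite V] [Finite G] [Group.IsNilpotent G] (S : Sys X G b D) (c k : ℕ)
    (hc : Group.nilpotencyClass G ≤ c) (hc1 : 1 ≤ c) (hk : 3 * 2 ^ c ≤ k + 3)
    (hD : 2 * (k + 1) ^ 2 ≤ D) : cycleGraph (2 * k) ⊑ X := by
  have hc2 : 2 ≤ 2 ^ c := by
    calc 2 = 2 ^ 1 := rfl
      _ ≤ 2 ^ c := Nat.pow_le_pow_right (by norm_num) hc1
  set M : Set G := {z : G | Ds X (b false) 2 z} with hM
  set H : Subgroup G := Subgroup.closure M with hH
  have S' : Sys X H b D := by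
    refine ⟨fun h a c hac => S.aut h.1 a c hac, S.adj, ?_, S.deg⟩
    intro i y hy
    obtain ⟨h, hh⟩ := S.nb i y hy
    refine ⟨⟨h, Subgroup.subset_closure ?_⟩, hh⟩
    rw [hM, Set.mem_ofPred_eq]
    refine ⟨2, le_rfl, ?_⟩
    cases i
    · refine ⟨y, hy, h • b false, ?_, rfl⟩
      rw [← hh]
      exact S.aut h _ _ S.adj.symm
    · refine ⟨b true, S.adj, h • b false, ?_, rfl⟩
      rw [Bool.not_true] at hh
      rw [hh]
      exact hy
  by_cases htop : NO S' = ⊤
  · refine S'.twins htop k (by omega) ?_
    nlinarith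
  · have hcl : Subgroup.closure {z : H | Ds X (b false) 2 z} = ⊤ := by
      have := Subgroup.closure_closure_coe_preimage (k := M)
      exact this
    have hlcs : (⊤ : Subgroup H).lowerCentralSeries c = ⊥ :=
      Subgroup.lowerCentralSeries_eq_bot_iff_nilpotencyClass_le.mpr
        ((Subgroup.nilpotencyClass_le H).trans hc)
    obtain ⟨g, hg, hR, hcomm⟩ := grp (NO S') {z : H | Ds X (b false) 2 z} hcl
      (fun m z => Ds X (b false) m z) (fun z hz => hz)
      (fun m u z h1 h2 => Ds.comm S'.aut h1 h2)
      (fun m m' u hmm h => by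
        obtain ⟨n, hn, hw⟩ := h
        exact ⟨n, hn.trans hmm, hw⟩) c hlcs htop
    have hcom : ∀ (h : H) (v : V), InO H b v → Tw X (h • g • v) (g • h • v) := by
      intro h v hv
      have h1 := hcomm h
      rw [Commute, SemiconjBy, ← map_mul, ← map_mul, QuotientGroup.mk'_apply,
        QuotientGroup.mk'_apply, QuotientGroup.eq] at h1
      have h2 := h1 v hv
      have h3 := Tw.smul S' (g * h) h2
      rw [← mul_smul, mul_inv_cancel_left, mul_smul, mul_smul] at h3
      exact h3
    exact S'.cycle g hcom (S'.move g hg hcom) k (3 * 2 ^ c - 4) hR (by omega) hD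

end Pool.Agent.H694R4
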