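import Pool.Agent.H694R4.Wk

/-!
# Two orbits of a nilpotent group
-/

set_option autoImplicit false

namespace Pool.Agent.H694R4

open SimpleGraph
open scoped commutatorElement

variable {V : Type*} {X : SimpleGraph V} {G : Type*} [Group G] [MulAction G V]
  {b : Bool → V} {D : ℕ}

/-- in one of the two orbits -/
def InO (G : Type*) [Group G] [MulAction G V] (b : Bool → V) (v : V) : Prop :=
  ∃ (i : Bool) (h : G), v = h • b i

theorem InO.smul {v : V} (h : G) (hv : InO G b v) : InO G b (h • v) := by
  obtain ⟨i, h0, rfl⟩ := hv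
  exact ⟨i, h * h0, (mul_smul _ _ _).symm⟩

theorem InO.base (i : Bool) : InO G b (b i) := ⟨i, 1, (one_smul _ _).symm⟩

/-- neighbours of translates of `b i` are translates of `b (!i)` -/
theorem Sys.nb' (S : Sys X G b D) (i : Bool) (h : G) (y : V) (hy : X.Adj (h • b i) y) :
    ∃ h' : G, y = h' • b (!i) := by
  have h1 : X.Adj (b i) (h⁻¹ • y) := by
    rw [← S.aut_iff h, smul_inv_smul]
    exact hy
  obtain ⟨h2, hh2⟩ := S.nb i _ h1
  exact ⟨h * h2, by rw [mul_smul, hh2, smul_inv_smul]⟩

theorem Sys.adj' (S : Sys X G b D) (i : Bool) : X.Adj (b i) (b (!i)) := by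
  cases i
  · exact S.adj
  · exact S.adj.symm

/-- the elements that move each vertex of the two orbits to a twin -/
def NO (S : Sys X G b D) : Subgroup G where
  carrier := {n | ∀ v, InO G b v → Tw X (n • v) v}
  mul_mem' := by
    intro m n hm hn v hv
    rw [mul_smul]
    exact (hm _ (hv.smul n)).trans (hn v hv)
  one_mem' := by
    intro v _
    rw [one_smul]
    exact fun x => Iff.rfl
  inv_mem' := by
    intro n hn v hv
    have := hn _ (hv.smul n⁻¹)
    rw [smul_inv_smul] at this
    exact this.symm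

instance NO_normal (S : Sys X G b D) : (NO S).Normal := by
  refine ⟨fun n hn g v hv => ?_⟩
  have h1 := Tw.smul S g (hn _ (hv.smul g⁻¹))
  rwa [smul_inv_smul, ← mul_smul, ← mul_smul] at h1

/-- an element that commutes with all others modulo twins and moves some vertex of the two orbits
not to a twin moves all of them not to a twin -/
theorem Sys.move (S : Sys X G b D) (g : G) (hg : g ∉ NO S)
    (hcom : ∀ (h : G) (v : V), InO G b v → Tw X (h • g • v) (g • h • v)) :
    ∀ v, InO G b v → ¬ Tw X (g • v) v := by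
  rintro v ⟨i, h, rfl⟩ htw
  apply hg
  have h1 : ∀ h' : G, Tw X (g • h' • b i) (h' • b i) := by
    intro h'
    have h2 := hcom (h' * h⁻¹) (h • b i) ⟨i, h, rfl⟩
    have h3 := Tw.smul S (h' * h⁻¹) htw
    have h4 : (h' * h⁻¹) • h • b i = h' • b i := by
      rw [mul_smul, inv_smul_smul]
    rw [h4] at h2 h3
    exact h2.symm.trans h3
  have h2 : ∀ h' : G, Tw X (g • h' • b (!i)) (h' • b (!i)) := by
    intro h' x
    constructor
    · intro hx
      have hx' : X.Adj (h' • b (!i)) (g⁻¹ • x) := by
        rw [← S.aut_iff g, smul_inv_smul]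
        exact hx
      obtain ⟨k, hk⟩ := S.nb' (!i) h' _ hx'
      rw [Bool.not_not] at hk
      have h3 := h1 k
      rw [← hk, smul_inv_smul] at h3
      exact ((h3 _).mpr hx'.symm).symm
    · intro hx
      obtain ⟨k, hk⟩ := S.nb' (!i) h' _ hx
      rw [Bool.not_not] at hk
      have h3 := h1 k
      rw [← hk] at h3
      have h4 := S.aut g _ _ hx
      exact ((h3 _).mp h4.symm).symm
  rintro v ⟨j, h', rfl⟩
  by_cases hij : j = i
  · subst hij
    exact h1 h'
  · have : j = !i := by
      revert hij
      cases i <;> cases j <;> simp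
    subst this
    exact h2 h'

/-- displacements of the two base points agree -/
theorem Sys.disp (S : Sys X G b D) (g : G)
    (hcom : ∀ (h : G) (v : V), InO G b v → Tw X (h • g • v) (g • h • v)) (i : Bool) (n : ℕ)
    (h : Wk X (n + 1) (b i) (g • b i)) : Wk X (n + 1) (b (!i)) (g • b (!i)) := by
  obtain ⟨y, h1, h2⟩ := h
  obtain ⟨k, hk⟩ := S.nb i y h1
  have h3 : Wk X (n + 1) y (g • y) := h2.trans (Wk.one (S.aut g _ _ h1))
  rw [← hk] at h3
  have h4 := h3.tw (hcom k (b (!i)) (InO.base _)).symm
  have h5 := h4.smul S.aut k⁻¹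
  rwa [inv_smul_smul, inv_smul_smul] at h5

/-- Even cycles from an element that commutes with all others modulo twins. -/
theorem Sys.cycle [Finite V] [Finite G] (S : Sys X G b D) (g : G)
    (hcom : ∀ (h : G) (v : V), InO G b v → Tw X (h • g • v) (g • h • v))
    (hmove : ∀ v, InO G b v → ¬ Tw X (g • v) v) (k m : ℕ) (hm : Ds X (b false) m g)
    (hmk : m < k) (hD : 2 * (k + 1) ^ 2 ≤ D) : cycleGraph (2 * k) ⊑ X := by
  classical
  obtain ⟨n0, hn0, hw0⟩ := hm
  have hne : ∀ i, g • b i ≠ b i := by
    intro i he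
    refine hmove (b i) (InO.base i) ?_
    rw [he]
    exact fun x => Iff.rfl
  have hex : ∃ n, Wk X n (b false) (g • b false) := ⟨n0, hw0⟩
  obtain ⟨d, hd, hmin⟩ : ∃ d, Wk X d (b false) (g • b false) ∧
      ∀ m < d, ¬ Wk X m (b false) (g • b false) :=
    ⟨Nat.find hex, Nat.find_spec hex, fun m hm => Nat.find_min hex hm⟩
  have hdn : d ≤ n0 := by
    by_contra hcon
    exact hmin n0 (by omega) hw0
  have hd1 : 1 ≤ d := by
    rcases Nat.eq_zero_or_pos d with h | h
    · subst h
      exact absurd hd.symm (hne false)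
    · exact h
  have hdt : Wk X d (b true) (g • b true) := by
    have := S.disp g hcom false (d - 1) (by rwa [Nat.sub_add_cancel hd1])
    rwa [Nat.sub_add_cancel hd1] at this
  have hmint : ∀ m < d, ¬ Wk X m (b true) (g • b true) := by
    intro m hm hw
    rcases Nat.eq_zero_or_pos m with h | h
    · subst h
      exact hne true hw.symm
    · have := S.disp g hcom true (m - 1) (by rwa [Nat.sub_add_cancel h])
      rw [Nat.sub_add_cancel h] at this
      exact hmin m hm this
  have hpath : ∀ i : Bool, ∃ p : ℕ → V, p 0 = b i ∧ p d = g • b i ∧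
      (∀ j < d, X.Adj (p j) (p (j + 1))) ∧ ∀ j j', j ≤ d → j' ≤ d → p j = p j' → j = j' := by
    intro i
    cases i
    · exact hd.path_inj hmin
    · exact hdt.path_inj hmint
  choose p hp0 hpd hp hinj using hpath
  have hinO : ∀ i j, j ≤ d → InO G b (p i j) := by
    intro i j
    induction j with
    | zero =>
      intro _
      rw [hp0]
      exact InO.base i
    | succ j ih =>
      intro hj
      obtain ⟨i', h', hi'⟩ := ih (by omega)
      have h1 := hp i j (by omega)
      rw [hi'] at h1
      obtain ⟨h2, hh2⟩ := S.nb' i' h' _ h1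
      exact ⟨_, h2, hh2⟩
  have hk : k = d + (k - d) := by omega
  have hbound : ∀ x : ℕ, x ≤ d + 1 + 2 * (k - d) → (d + 1) * x < D := by
    intro x hx
    have h1 : (d + 1) * x ≤ (k + 1) * (2 * k) := by
      apply Nat.mul_le_mul
      · omega
      · omega
    have h2 : (k + 1) * (2 * k) < 2 * (k + 1) ^ 2 := by nlinarith
    omega
  rw [hk]
  refine key X S.aut d (k - d) hd1 (by omega) p hp hinj ?_ ?_ false
  · intro i i' h h' hadj
    rw [hp0, hp0] at hadj
    rw [hpd, hpd]
    have h1 := S.aut g _ _ hadj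
    have h2 := hcom h (b i) (InO.base i)
    have h3 := hcom h' (b i') (InO.base i')
    have h4 := (h2 _).mpr h1
    exact ((h3 _).mpr h4.symm).symm
  · intro j h' B hB
    obtain ⟨h, hh1, hh2⟩ := S.sel d (p (!j)) (fun m hm => hinO _ _ hm) j h' B
      (hbound _ hB)
    refine ⟨!j, h, ?_, hh2⟩
    rw [hp0, hp0]
    exact hh1

end Pool.Agent.H694R4
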