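import Pool.Agent.H694R4.Cnt

/-!
# Walks, twins, displacement
-/

set_option autoImplicit false

namespace Pool.Agent.H694R4

open scoped commutatorElement

variable {V : Type*} {X : SimpleGraph V}

/-- vertices with the same neighbours -/
def Tw (X : SimpleGraph V) (a b : V) : Prop := ∀ x, X.Adj a x ↔ X.Adj b x

/-- there is a walk of length `n` -/
def Wk (X : SimpleGraph V) : ℕ → V → V → Prop
  | 0, a, b => a = b
  | n + 1, a, b => ∃ y, X.Adj a y ∧ Wk X n y b

theorem Wk.trans {m n : ℕ} : ∀ {a b c : V}, Wk X m a b → Wk X n b c → Wk X (m + n) a c := by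
  induction m with
  | zero =>
    intro a b c h1 h2
    rw [Wk] at h1
    subst h1
    rwa [Nat.zero_add]
  | succ m ih =>
    rintro a b c ⟨y, h1, h2⟩ h3
    rw [show m + 1 + n = (m + n) + 1 by omega]
    exact ⟨y, h1, ih h2 h3⟩

theorem Wk.one {a b : V} (h : X.Adj a b) : Wk X 1 a b := ⟨b, h, rfl⟩

theorem Wk.symm {n : ℕ} : ∀ {a b : V}, Wk X n a b → Wk X n b a := by
  induction n with
  | zero =>
    intro a b h
    exact Eq.symm h
  | succ n ih =>
    rintro a b ⟨y, h1, h2⟩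
    exact (ih h2).trans (Wk.one h1.symm)

theorem Wk.unsnoc {n : ℕ} {a b : V} (h : Wk X (n + 1) a b) : ∃ y, Wk X n a y ∧ X.Adj y b := by
  obtain ⟨y, h1, h2⟩ := h.symm
  exact ⟨y, h2.symm, h1.symm⟩

theorem Wk.tw {n : ℕ} {a b b' : V} (h : Wk X (n + 1) a b) (hb : Tw X b b') :
    Wk X (n + 1) a b' := by
  obtain ⟨y, h1, h2⟩ := h.unsnoc
  exact h1.trans (Wk.one ((hb y).mp h2.symm).symm)

theorem Wk.path {n : ℕ} : ∀ {a b : V}, Wk X n a b → ∃ p : ℕ → V, p 0 = a ∧ p n = b ∧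
    ∀ j < n, X.Adj (p j) (p (j + 1)) := by
  induction n with
  | zero =>
    intro a b h
    exact ⟨fun _ => a, rfl, h, fun j hj => absurd hj (by omega)⟩
  | succ n ih =>
    rintro a b ⟨y, h1, h2⟩
    obtain ⟨p, hp0, hpn, hp⟩ := ih h2
    refine ⟨fun j => if j = 0 then a else p (j - 1), by simp, by simp [hpn], ?_⟩
    intro j hj
    rcases Nat.eq_zero_or_pos j with h | h
    · subst h
      simp [hp0, h1]
    · simp only
      rw [if_neg (by omega), if_neg (by omega), show j + 1 - 1 = (j - 1) + 1 by omega]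
      exact hp _ (by omega)

theorem Wk.of_path {n : ℕ} (p : ℕ → V) (hp : ∀ j < n, X.Adj (p j) (p (j + 1))) (i : ℕ) :
    ∀ m, i + m ≤ n → Wk X m (p i) (p (i + m)) := by
  intro m
  induction m with
  | zero => intro _; rfl
  | succ m ih =>
    intro h
    exact (ih (by omega)).trans (Wk.one (hp (i + m) (by omega)))

/-- a walk of minimal length is a path -/
theorem Wk.path_inj {n : ℕ} {a b : V} (h : Wk X n a b) (hmin : ∀ m < n, ¬ Wk X m a b) :
    ∃ p : ℕ → V, p 0 = a ∧ p n = b ∧ (∀ j < n, X.Adj (p j) (p (j + 1))) ∧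
      ∀ j j', j ≤ n → j' ≤ n → p j = p j' → j = j' := by
  obtain ⟨p, hp0, hpn, hp⟩ := h.path
  refine ⟨p, hp0, hpn, hp, ?_⟩
  have key : ∀ j j', j < j' → j' ≤ n → p j ≠ p j' := by
    intro j j' h1 h2 he
    have h3 := Wk.of_path p hp 0 j (by omega)
    have h4 := Wk.of_path p hp j' (n - j') (by omega)
    rw [show j' + (n - j') = n by omega, hpn, ← he] at h4
    rw [Nat.zero_add, hp0] at h3
    exact hmin _ (by omega) (h3.trans h4)
  intro j j' h1 h2 he
  rcases Nat.lt_trichotomy j j' with h3 | h3 | h3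
  · exact absurd he (key _ _ h3 h2)
  · exact h3
  · exact absurd he.symm (key _ _ h3 h1)

variable {G : Type*} [Group G] [MulAction G V] {b : Bool → V} {D : ℕ}

theorem Wk.smul (haut : ∀ (h : G) (a c : V), X.Adj a c → X.Adj (h • a) (h • c)) {n : ℕ} (h : G) :
    ∀ {a c : V}, Wk X n a c → Wk X n (h • a) (h • c) := by
  induction n with
  | zero =>
    intro a c h1
    rw [Wk] at h1
    subst h1
    rfl
  | succ n ih =>
    rintro a c ⟨y, h1, h2⟩
    exact ⟨h • y, haut h _ _ h1, ih h2⟩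

theorem Tw.smul (S : Sys X G b D) (h : G) {a c : V} (H : Tw X a c) : Tw X (h • a) (h • c) := by
  intro x
  have h1 := H (h⁻¹ • x)
  rw [← S.aut_iff h, ← S.aut_iff h c, smul_inv_smul] at h1
  exact h1

theorem Tw.trans {a c e : V} (h1 : Tw X a c) (h2 : Tw X c e) : Tw X a e :=
  fun x => (h1 x).trans (h2 x)

theorem Tw.symm {a c : V} (h1 : Tw X a c) : Tw X c a := fun x => (h1 x).symm

/-- displacement is at most `m` -/
def Ds (X : SimpleGraph V) (v : V) (m : ℕ) (z : G) : Prop := ∃ n ≤ m, Wk X n v (z • v)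

theorem Ds.mul (haut : ∀ (h : G) (a c : V), X.Adj a c → X.Adj (h • a) (h • c)) {v : V} {m n : ℕ}
    {x y : G} (h1 : Ds X v m x) (h2 : Ds X v n y) : Ds X v (m + n) (x * y) := by
  obtain ⟨m', hm, hx⟩ := h1
  obtain ⟨n', hn, hy⟩ := h2
  refine ⟨m' + n', by omega, hx.trans ?_⟩
  rw [mul_smul]
  exact hy.smul haut x

theorem Ds.inv (haut : ∀ (h : G) (a c : V), X.Adj a c → X.Adj (h • a) (h • c)) {v : V} {m : ℕ}
    {x : G} (h1 : Ds X v m x) : Ds X v m x⁻¹ := by
  obtain ⟨m', hm, hx⟩ := h1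
  refine ⟨m', hm, ?_⟩
  have := hx.symm.smul haut x⁻¹
  rwa [inv_smul_smul] at this

theorem Ds.comm (haut : ∀ (h : G) (a c : V), X.Adj a c → X.Adj (h • a) (h • c)) {v : V} {m : ℕ}
    {u z : G} (h1 : Ds X v m u) (h2 : Ds X v 2 z) : Ds X v (2 * m + 4) ⁅u, z⁆ := by
  rw [commutatorElement_def]
  have h3 := ((h1.mul haut h2).mul haut (h1.inv haut)).mul haut (h2.inv haut)
  rwa [show m + 2 + m + 2 = 2 * m + 4 by omega] at h3

end Pool.Agent.H694R4
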